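import Pool.Agent.Lib.MP_a8c702_nt.LT.Wrap

/-! Sets cut out by a line on a finite group of characters: the sharp size bound over every
field. -/

namespace Pool.Agent.Lib.MP_a8c702_nt.Old.LineTorus

open Pool.Agent.Lib.MP_a8c702_nt.LT

theorem result (h : ℕ) (hh : 2 ≤ h) : ∃ C : ℕ,
    ∀ (K : Type) [Field K] (G : Type) [CommGroup G] [Finite G] (a b u : Fin (h + 1) → K)
      (ρ : Fin (h + 1) → G →* Kˣ) (A : Finset G),
      (∀ j k, j ≠ k → a j * b k ≠ a k * b j) → (∀ j, u j ≠ 0) →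
      (∀ g, (∀ j k, ρ j g = ρ k g) → g = 1) →
      (∀ g ∈ A, ∃ x y : K, ∀ j, u j * ρ j g = a j * x + b j * y) →
      (A.card : ℝ) ≤ (Nat.card G : ℝ) ^ ((h : ℝ)⁻¹) + C := by
  have h0 : h ≠ 0 := by omega
  obtain ⟨C', h2⟩ := inv' h 3 hh three_pos
  refine ⟨C' + h + 1, fun K _ G _ _ a b u ρ A hab hu hρ hA => ?_⟩
  have key : ∀ R : ℕ, R ^ h ≤ Nat.card G → A.card ≤ R + (C' + h + 1) →
      (A.card : ℝ) ≤ (Nat.card G : ℝ) ^ ((h : ℝ)⁻¹) + (C' + h + 1 : ℕ) := fun R b1 b2 => by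
    have b3 : (R : ℝ) ≤ (Nat.card G : ℝ) ^ ((h : ℝ)⁻¹) := by
      rw [← Real.pow_rpow_inv_natCast (Nat.cast_nonneg R) h0]
      exact Real.rpow_le_rpow (by positivity) (by exact_mod_cast b1) (by positivity)
    exact (Nat.cast_le.2 b2).trans (by rw [Nat.cast_add]; exact add_le_add b3 le_rfl)
  by_cases a1 : A.card ≤ C'
  · exact key 0 (by simp [h0]) (by omega)
  by_cases a2 : A.card ^ h ≤ Nat.card G
  · exact key _ a2 (by omega)
  obtain ⟨p, e, I, σ, A₀, -, -, -, -, b1, b2, -, b3, b4, b5, -⟩ := h2 K G a b u ρ A hab hu hρ hA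
    (by omega) ((not_le.1 a2).trans_le (Nat.pow_le_pow_left (by omega) _))
  rw [one_of hh b3 b4 b5 (not_le.1 a2), one_mul] at b4
  exact key _ b4 (by omega)

end Pool.Agent.Lib.MP_a8c702_nt.Old.LineTorus
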